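import Pool.Agent.H157.Iso.Poly

/-!
# Isospectral circumscribed polygons: sign changes of the counting functions of the angles

Let `P` be a convex polygon which is circumscribed about a circle and let `Q` be a convex polygon
with the same Dirichlet spectrum. For `u < π` let `N_P(u)` be the number of the angles of `P` which
are at most `u`.

1. Either `P` and `Q` have the same angles up to order, or `N_Q - N_P` takes the signs `-`, `+`, `-`
   at some `u₁ < u₂ < u₃ < π`.
2. If `Q` is circumscribed too then either `P` and `Q` have the same angles up to order, or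
   `N_Q - N_P` changes its sign at least three times on `(-∞, π)`.
3. If all angles of `P` but one are equal, the exceptional one being smaller, then each isospectral
   `Q` with at most as many vertices which is circumscribed, or has an angle not larger than the
   smallest angle of `P`, is congruent to `P`.
4. If `P` and `Q` are circumscribed, with the same number of vertices, and the angles of both are
   constant on the same three classes of vertices, and weakly increase with the number of the class
   (for example kites of the same type), then they are congruent.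
-/

set_option autoImplicit false

open Complex Set
open scoped Real
open Pool.Agent.W780.PG (IsConvexPolygon region ang)
open Pool.Agent.W703.GP (Isospectral)
open Pool.Agent.Y289.HI (Circ)

namespace Pool.Agent.Results.MP_5b0138_an.AngleSignChanges

/-- the number of the angles of the polygon `p` which are at most `u` -/
noncomputable def numAngles {n : ℕ} (p : Fin (n + 3) → ℂ) (u : ℝ) : ℕ :=
  (Finset.univ.filter fun i => ang p i ≤ u).card

/-- `p` and `q` have the same angles, with multiplicities, up to order (so they have the same number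
of vertices). -/
def SameAngles {n m : ℕ} (p : Fin (n + 3) → ℂ) (q : Fin (m + 3) → ℂ) : Prop :=
  ∃ e : Fin (n + 3) ≃ Fin (m + 3), ∀ i, ang q (e i) = ang p i

/-- the polygons `p` and `q` are congruent -/
def Congruent {n m : ℕ} (p : Fin (n + 3) → ℂ) (q : Fin (m + 3) → ℂ) : Prop :=
  ∃ φ : ℂ ≃ᵢ ℂ, φ '' region p = region q

/-- at `u` the polygon `p` has more angles up to `u` than `q` -/
def More {n m : ℕ} (p : Fin (n + 3) → ℂ) (q : Fin (m + 3) → ℂ) (u : ℝ) : Prop :=
  numAngles q u < numAngles p u

theorem result {n m : ℕ} (p : Fin (n + 3) → ℂ) (q : Fin (m + 3) → ℂ) (hp : IsConvexPolygon p)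
    (hq : IsConvexPolygon q) (hc : Circ p) (hiso : Isospectral (region p) (region q)) :
    (SameAngles p q ∨ ∃ u₁ u₂ u₃ : ℝ, u₁ < u₂ ∧ u₂ < u₃ ∧ u₃ < π ∧
      More p q u₁ ∧ More q p u₂ ∧ More p q u₃) ∧
    (Circ q → SameAngles p q ∨ ∃ u₁ u₂ u₃ u₄ : ℝ, u₁ < u₂ ∧ u₂ < u₃ ∧ u₃ < u₄ ∧ u₄ < π ∧
      ((More p q u₁ ∧ More q p u₂ ∧ More p q u₃ ∧ More q p u₄) ∨
        (More q p u₁ ∧ More p q u₂ ∧ More q p u₃ ∧ More p q u₄))) ∧
    (∀ (k : Fin (n + 3)) (α : ℝ), (∀ j, j ≠ k → ang p j = α) → ang p k ≤ α → m ≤ n →
      (Circ q ∨ ∃ j, ang q j ≤ ang p k) → Congruent p q) ∧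
    (∀ h : m = n, Circ q → ∀ (t : Fin (n + 3) → Fin 3) (a b : Fin 3 → ℝ), Monotone a →
      Monotone b → (∀ i, ang p i = a (t i)) →
      (∀ i, ang q (Fin.cast (congrArg (· + 3) h.symm) i) = b (t i)) → Congruent p q) := by
  refine ⟨?_, ?_, ?_, ?_⟩
  · exact Pool.Agent.H157.Iso.main1 hp hq hc hiso
  · exact fun hcq => Pool.Agent.H157.Iso.main2 hp hq hc hcq hiso
  · exact fun k α h1 h2 hmn hcq =>
      Pool.Agent.H157.Iso.small_one hp hc k α h1 h2 hmn hq hcq hiso
  · intro h hcq t a b ha hb h1 h2
    subst h
    exact Pool.Agent.H157.Iso.blocks hp hq hc hcq t a b ha hb h1 h2 hiso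

end Pool.Agent.Results.MP_5b0138_an.AngleSignChanges
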