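import Pool.Agent.Y289.HI.All3
import Pool.Agent.Y459.HI.Vs

/-!
# Regular polygons, and other circumscribed polygons, are determined by their Dirichlet spectrum

Every polygon which is circumscribed about a circle, and all of whose angles are equal but one, which
is at least as large as the others, is determined by its Dirichlet spectrum among all convex
polygons, with any number of vertices. This includes all regular polygons.
-/

set_option autoImplicit false

open Complex Set
open Pool.Agent.W780.PG (IsConvexPolygon region ang)
open Pool.Agent.W703.GP (Isospectral)
open Pool.Agent.Y289.HI (Circ)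

namespace Pool.Agent.Results.MP_5b0138_an.CircumscribedPolygons

/-- Let `p` be a strictly convex polygon which is circumscribed about a circle and all of whose
angles are equal but one, number `k`, which is at least as large as the others. If the interior of the
convex hull of a finite set `S`, an arbitrary convex polygon, has the same Dirichlet spectrum, then it
is congruent to `p`. -/
theorem result (n : ℕ) (p : Fin (n + 3) → ℂ) (hp : IsConvexPolygon p) (hc : Circ p)
    (k : Fin (n + 3)) (α : ℝ) (h1 : ∀ j, j ≠ k → ang p j = α) (h2 : α ≤ ang p k)
    (S : Set ℂ) (hS : S.Finite) (hne : (interior (convexHull ℝ S)).Nonempty)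
    (hiso : Isospectral (region p) (interior (convexHull ℝ S))) :
    ∃ φ : ℂ ≃ᵢ ℂ, φ '' region p = interior (convexHull ℝ S) := by
  obtain ⟨m, q, h3, h4⟩ := Pool.Agent.Y459.HI.vs S hS hne
  rw [← h4] at hiso ⊢
  exact Pool.Agent.Y289.HI.circ n m p hp hc k α h1 h2 q h3 hiso

end Pool.Agent.Results.MP_5b0138_an.CircumscribedPolygons
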