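import Mathlib
import Pool.Agent.V1183.ISP.Unif
import Pool.Agent.W780.PG.Asm

/-!
# Uniform Lipschitz stability of the inverse spectral problem for almost all convex polygons

There is an open set `G` of full measure in the space of convex polygons with `N = n + 3` vertices
such that on each compact subset `S` of `G` the inverse spectral problem among all convex polygons
with at most `N` vertices is solved by the same finite number `K` of eigenvalues, with the same
constants:

* each convex polygon `q` with at most `N` vertices and the same first `K` Dirichlet eigenvalues as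
  a polygon `p` in `S` has `N` vertices and is isospectral to `p`;
* if the first `K` eigenvalues of `q` and `p` differ by at most `ε ≤ δ`, then `q` is within `C ε`,
  vertex by vertex and in the Hausdorff distance, of a convex polygon `Q` isospectral to `p`;
* if moreover `p` is determined by its spectrum among the convex polygons with at most `N`
  vertices, then `q` is within Hausdorff distance `C ε` of a congruent copy of `p`.
-/

set_option autoImplicit false

open Set MeasureTheory Metric
open Pool.Agent.W780.PG (IsConvexPolygon region)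
open Pool.Agent.W703.GP (dirichletEigenvalue Isospectral)

namespace Pool.Agent.Results.MP_5b0138_an.LipschitzStability

/-- The first `K` Dirichlet eigenvalues of `Ω` and `Ω'` differ by at most `ε`. -/
def Close (K : ℕ) (ε : ℝ) (Ω Ω' : Set ℂ) : Prop :=
  ∀ k, 1 ≤ k → k ≤ K → |dirichletEigenvalue Ω k - dirichletEigenvalue Ω' k| ≤ ε

/-- The convex polygon `p` is determined up to congruence by its Dirichlet spectrum among the
convex polygons which do not have more vertices. -/
def Determined {n : ℕ} (p : Fin (n + 3) → ℂ) : Prop :=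
  ∀ m ≤ n, ∀ q : Fin (m + 3) → ℂ, IsConvexPolygon q → Isospectral (region p) (region q) →
    ∃ φ : ℂ ≃ᵢ ℂ, φ '' region p = region q

/-- points of the hull of nearby points are near the hull -/
theorem hull_near {ι : Type} [Finite ι] [Nonempty ι] (a b : ι → ℂ) {r : ℝ}
    (h : ∀ i, ‖a i - b i‖ ≤ r) (x : ℂ) (hx : x ∈ convexHull ℝ (range a)) :
    ∃ y ∈ convexHull ℝ (range b), dist x y ≤ r := by
  have hr : 0 ≤ r := (norm_nonneg _).trans (h (Classical.arbitrary ι))
  have hc : IsCompact (convexHull ℝ (range b)) := (finite_range b).isCompact_convexHull ℝ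
  have hn : (convexHull ℝ (range b)).Nonempty := (range_nonempty b).convexHull
  have hsub : convexHull ℝ (range a) ⊆ cthickening r (convexHull ℝ (range b)) := by
    refine convexHull_min ?_ ((convex_convexHull ℝ _).cthickening r)
    rintro _ ⟨i, rfl⟩
    refine mem_cthickening_of_dist_le (a i) (b i) r _ (subset_convexHull ℝ _ ⟨i, rfl⟩) ?_
    rw [dist_eq_norm]
    exact h i
  have h1 := hsub hx
  obtain ⟨y, hy, hy2⟩ := hc.exists_infDist_eq_dist hn x
  refine ⟨y, hy, ?_⟩
  rw [← hy2]
  rw [mem_cthickening_iff] at h1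
  unfold infDist
  exact ENNReal.toReal_le_of_le_ofReal hr h1

/-- two convex polygons with nearby vertices are close in the Hausdorff distance -/
theorem region_near {n : ℕ} {p q : Fin (n + 3) → ℂ} (hp : IsConvexPolygon p)
    (hq : IsConvexPolygon q) {r : ℝ} (h : ∀ i, ‖p i - q i‖ ≤ r) :
    hausdorffDist (region p) (region q) ≤ r := by
  have hr : 0 ≤ r := (norm_nonneg _).trans (h 0)
  have key : ∀ p : Fin (n + 3) → ℂ, IsConvexPolygon p →
      closure (region p) = convexHull ℝ (range p) := by
    intro p hp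
    obtain ⟨-, -, -, hne, -⟩ := Pool.Agent.W703.GP.region_facts hp
    have hc : IsClosed (convexHull ℝ (range p)) :=
      ((finite_range p).isCompact_convexHull ℝ).isClosed
    rw [region, (convex_convexHull ℝ (range p)).closure_interior_eq_closure_of_nonempty_interior hne,
      hc.closure_eq]
  rw [← hausdorffDist_closure, key p hp, key q hq]
  refine hausdorffDist_le_of_mem_dist hr (fun x hx => hull_near p q h x hx) fun x hx => ?_
  obtain ⟨y, hy, hxy⟩ := hull_near q p (fun i => by rw [norm_sub_rev]; exact h i) x hx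
  exact ⟨y, hy, hxy⟩

/-- **Uniform Lipschitz stability on compact subsets of an open set of full measure.** -/
theorem result (n : ℕ) :
    ∃ G : Set (Fin (n + 3) → ℂ), IsOpen G ∧ volume ({p | IsConvexPolygon p} \ G) = 0 ∧
      (∀ p ∈ G, IsConvexPolygon p) ∧
      ∀ S : Set (Fin (n + 3) → ℂ), IsCompact S → S ⊆ G → ∃ (K : ℕ) (C δ : ℝ), 0 < C ∧ 0 < δ ∧
        ∀ p ∈ S, ∀ m ≤ n, ∀ q : Fin (m + 3) → ℂ, IsConvexPolygon q →
          ((∀ k, 1 ≤ k → k ≤ K →
              dirichletEigenvalue (region q) k = dirichletEigenvalue (region p) k) →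
            m = n ∧ Isospectral (region p) (region q)) ∧
          ∀ ε : ℝ, 0 ≤ ε → ε ≤ δ → Close K ε (region q) (region p) →
            (∃ h : m = n, ∃ Q : Fin (n + 3) → ℂ, IsConvexPolygon Q ∧
              Isospectral (region p) (region Q) ∧
              (∀ i : Fin (m + 3), ‖q i - Q (Fin.cast (congrArg (· + 3) h) i)‖ ≤ C * ε) ∧
              hausdorffDist (region q) (region Q) ≤ C * ε) ∧
            (Determined p → ∃ φ : ℂ ≃ᵢ ℂ, hausdorffDist (region q) (φ '' region p) ≤ C * ε) := by
  obtain ⟨G, hG, hG0, hGc, H⟩ := Pool.Agent.V1183.ISP.unif_compact n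
  refine ⟨G, hG, hG0, hGc, fun S hS hSG => ?_⟩
  obtain ⟨K, C, δ, hC, hδ, h⟩ := H S hS hSG
  refine ⟨K, C, δ, hC, hδ, fun p hp m hm q hq => ?_⟩
  have main : ∀ ε : ℝ, 0 ≤ ε → ε ≤ δ → Close K ε (region q) (region p) →
      ∃ h : m = n, ∃ Q : Fin (n + 3) → ℂ, IsConvexPolygon Q ∧
        Isospectral (region p) (region Q) ∧
        (∀ i : Fin (m + 3), ‖q i - Q (Fin.cast (congrArg (· + 3) h) i)‖ ≤ C * ε) ∧
        hausdorffDist (region q) (region Q) ≤ C * ε := by
    intro ε h0 h1 h2
    obtain ⟨hmn, Q, hQ, hQi, hd⟩ := h p hp m hm q hq ε h0 h1 h2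
    refine ⟨hmn, Q, hQ, hQi, hd, ?_⟩
    subst hmn
    exact region_near hq hQ hd
  refine ⟨fun heq => ?_, fun ε h0 h1 h2 => ⟨main ε h0 h1 h2, fun hdet => ?_⟩⟩
  · obtain ⟨hmn, Q, hQ, hQi, hd, -⟩ := main 0 le_rfl hδ.le fun k hk hkK => by
      rw [heq k hk hkK, sub_self, abs_zero]
    refine ⟨hmn, ?_⟩
    subst hmn
    have hqQ : q = Q := by
      funext i
      have h1 := hd i
      rw [mul_zero] at h1
      exact sub_eq_zero.1 (norm_eq_zero.1 (le_antisymm h1 (norm_nonneg _)))
    rw [hqQ]
    exact hQi
  · obtain ⟨hmn, Q, hQ, hQi, -, hd⟩ := main ε h0 h1 h2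
    obtain ⟨φ, hφ⟩ := hdet n le_rfl Q hQ hQi
    exact ⟨φ, by rw [hφ]; exact hd⟩

end Pool.Agent.Results.MP_5b0138_an.LipschitzStability
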